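import Pool.Agent.helper66.JS.Defs2
import Pool.Agent.H54.PT.Enc

/-!
# The reduction is computable in polynomial time
-/

set_option autoImplicit false
set_option linter.unusedSimpArgs false
set_option linter.unusedVariables false

namespace Pool.Agent.helper66.JS

namespace K1

open Pool.Agent.H54.PT Function

/-! ### Lists of words -/

/-- Lists of words which can be written in polynomial time. -/
def Lw (F : List Bool → (ℕ → ℕ) → List WD) : Prop :=
  De (fun x v => (F x v).map (fun w => jobOf w.letters)) ∧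
    Cp (fun x v => ((F x v).map (fun w => (w.letters.map pp).sum)).sum)

lemma Lw.congr {F G : List Bool → (ℕ → ℕ) → List WD} (h : Lw F) (e : ∀ x v, F x v = G x v) :
    Lw G := by
  have : F = G := by funext x v; exact e x v
  exact this ▸ h

lemma Lw.append {F G : List Bool → (ℕ → ℕ) → List WD} (hF : Lw F) (hG : Lw G) :
    Lw (fun x v => F x v ++ G x v) :=
  ⟨(hF.1.append hG.1).congr fun x v => by rw [List.map_append],
    (hF.2.add hG.2).congr fun x v => by rw [List.map_append, List.sum_append]⟩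

lemma sum_range_map (n : ℕ) (f : ℕ → ℕ) : ((List.range n).map f).sum = ∑ i ∈ Finset.range n, f i := by
  induction n with
  | zero => rfl
  | succ n ih => rw [List.range_succ, List.map_append, List.sum_append, ih, Finset.sum_range_succ]; simp

lemma Lw.flatMap {b : Fn} {F : List Bool → (ℕ → ℕ) → ℕ → List WD} (hb : Cp b)
    (hF : Lw (fun x v => F x (fun i => v (i + 1)) (v 0))) :
    Lw (fun x v => (List.range (b x v)).flatMap (fun i => F x v i)) := by
  constructor
  · refine (De.flatMap (F := fun x v i => (F x v i).map (fun w => jobOf w.letters)) hb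
      hF.1).congr fun x v => ?_
    rw [List.map_flatMap]
  · refine (Cp.sum' (f := fun x v i => ((F x v i).map (fun w => (w.letters.map pp).sum)).sum) hb
      hF.2).congr fun x v => ?_
    rw [List.map_flatMap, ← sum_range_map]
    generalize List.range (b x v) = l
    induction l with
    | nil => rfl
    | cons a l ih => simp [ih]

lemma Lw.cons {G : List Bool → (ℕ → ℕ) → List WD} {w : List Bool → (ℕ → ℕ) → WD}
    (hw : Lw (fun x v => [w x v])) (hG : Lw G) : Lw (fun x v => w x v :: G x v) :=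
  (hw.append hG).congr fun _ _ => rfl

lemma Lw.replicate {b : Fn} {w : List Bool → (ℕ → ℕ) → WD} (hb : Cp b)
    (hw : Lw (fun x v => [w x v])) : Lw (fun x v => List.replicate (b x v) (w x v)) := by
  have h1 : Lw (fun x v => [w x (fun i => v (i + 1))]) := ⟨hw.1.rename _, hw.2.rename _⟩
  refine (Lw.flatMap (F := fun x v _ => [w x v]) hb h1).congr fun x v => ?_
  induction b x v with
  | zero => rfl
  | succ n ih =>
    rw [List.range_succ, List.flatMap_append, ih, List.replicate_succ']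
    rfl

lemma Lw.rename {F : List Bool → (ℕ → ℕ) → List WD} (h : Lw F) (σ : ℕ → ℕ) :
    Lw (fun x v => F x (fun i => v (σ i))) := ⟨h.1.rename σ, h.2.rename σ⟩

lemma Lw.letE {e : Fn} {F : List Bool → (ℕ → ℕ) → List WD} (he : Cp e) (h : Lw F) :
    Lw (fun x v => F x (Pool.Agent.H54.PT.cons (e x v) v)) := ⟨De.letE he h.1, Cp.letE he h.2⟩

lemma at_eq (w : WD) (q : ℕ) : w.at q = if q % 2 = 0 then
    (if q / 2 ∈ w.Z then .z else if q / 2 ∈ w.A then .a else .n1)
    else if q / 2 ∈ w.U then .up else if q / 2 ∈ w.D then .dn else .n2 := by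
  unfold WD.at WD.U WD.D
  split_ifs with h0 h1 h2 h3 h4
  all_goals (cases hud : w.ud with
    | none => simp_all
    | some p => simp_all)

/-- sets of numbers decidable in polynomial time -/
def Cs (S : List Bool → (ℕ → ℕ) → Finset ℕ) : Prop :=
  Cq (fun x v => v 0 ∈ S x (fun i => v (i + 1)))

/-- one word -/
lemma Lw.single {w : List Bool → (ℕ → ℕ) → WD} (hK : Cp (fun x v => (w x v).K))
    (hA : Cs (fun x v => (w x v).A)) (hZ : Cs (fun x v => (w x v).Z))
    (hU : Cs (fun x v => (w x v).U)) (hD : Cs (fun x v => (w x v).D)) :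
    Lw (fun x v => [w x v]) := by
  have hh : Cp (fun _ v => v 0 / 2) := (Cp.var 0).div (Cp.const 2)
  have hm : Cq (fun _ v => v 0 % 2 = 0) := Cq.eq ((Cp.var 0).mod (Cp.const 2)) (Cp.const 0)
  have key : ∀ (S : WD → Finset ℕ), Cs (fun x v => S (w x v)) →
      Cq (fun x v => v 0 / 2 ∈ S (w x (fun i => v (i + 1)))) := by
    intro S hS
    have h1 : Cq (fun x v => v 0 ∈ S (w x (fun i => v (i + 2)))) :=
      hS.rename (fun i => if i = 0 then 0 else i + 1)
    exact Cq.letE (P := fun x v => v 0 ∈ S (w x (fun i => v (i + 2)))) hh h1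
  have kA := key WD.A hA
  have kZ := key WD.Z hZ
  have kU := key WD.U hU
  have kD := key WD.D hD
  have hb : Cp (fun x v => 2 * (w x v).K + 1) := ((Cp.const 2).mul hK).succ
  constructor
  · have h1 : De (fun x v => opsOf ((w x (fun i => v (i + 1))).at (v 0))) := by
      refine (De.ite hm (De.ite kZ (De.word (opsOf .z)) (De.ite kA (De.word (opsOf .a))
        (De.word (opsOf .n1)))) (De.ite kU (De.word (opsOf .up)) (De.ite kD (De.word (opsOf .dn))
        (De.word (opsOf .n2))))).congr fun x v => ?_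
      rw [at_eq]
      split_ifs <;> rfl
    have h2 := De.single (De.flatMap (F := fun x v q => opsOf ((w x v).at q)) hb h1)
    refine h2.congr fun x v => ?_
    rw [List.map_cons, List.map_nil, jobOf, WD.letters, List.flatMap_map]
  · have h1 : Cp (fun x v => pp ((w x (fun i => v (i + 1))).at (v 0))) := by
      refine (Cp.ite hm (Cp.ite kZ (Cp.const (pp .z)) (Cp.ite kA (Cp.const (pp .a))
        (Cp.const (pp .n1)))) (Cp.ite kU (Cp.const (pp .up)) (Cp.ite kD (Cp.const (pp .dn))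
        (Cp.const (pp .n2))))).congr fun x v => ?_
      rw [at_eq]
      split_ifs <;> rfl
    refine (Cp.sum' (f := fun x v q => pp ((w x v).at q)) hb h1).congr fun x v => ?_
    rw [List.map_cons, List.map_nil, List.sum_cons, List.sum_nil, Nat.add_zero, WD.letters,
      List.map_map, ← sum_range_map]
    rfl

/-! ### Sets of numbers -/

lemma Cs.single {e : Fn} (he : Cp e) : Cs (fun x v => {e x v}) :=
  (Cq.eq (Cp.var 0) (he.rename (· + 1))).congr fun x v => by rw [Finset.mem_singleton]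

lemma Cs.empty : Cs (fun _ _ => ∅) :=
  (Cq.const False).congr fun x v => by simp

lemma Cs.insert {e : Fn} {S : List Bool → (ℕ → ℕ) → Finset ℕ} (he : Cp e) (hS : Cs S) :
    Cs (fun x v => Insert.insert (e x v) (S x v)) :=
  ((Cq.eq (Cp.var 0) (he.rename (· + 1))).or hS).congr fun x v => by rw [Finset.mem_insert]

lemma cp_th {e : Fn} (he : Cp e) : Cp (fun x v => th (e x v)) :=
  (Cp.const 3).add ((Cp.const 2).mul he)

/-! ### Nets -/

structure CNet (n : List Bool → Net) : Prop where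
  a : Cp (fun x _ => (n x).a)
  Zn : Cp (fun x _ => (n x).Zn)
  r : Cp (fun x _ => (n x).r)
  Cyc : Cp (fun x _ => (n x).Cyc)
  i0 : Cp (fun x v => ((n x).rule (v 0)).i0)
  i1 : Cp (fun x v => ((n x).rule (v 0)).i1)
  i2 : Cp (fun x v => ((n x).rule (v 0)).i2)
  o0 : Cp (fun x v => ((n x).rule (v 0)).o0)
  o1 : Cp (fun x v => ((n x).rule (v 0)).o1)
  o2 : Cp (fun x v => ((n x).rule (v 0)).o2)
  l : Cp (fun x v => ((n x).rule (v 0)).l)
  mult : Cp (fun x v => (n x).mult (v 0))
  c0 : Cp (fun x v => (n x).c0 (v 0) (v 1))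
  cf : Cp (fun x v => (n x).cf (v 0) (v 1))

section net

variable {n : List Bool → Net} (h : CNet n)

include h

lemma CNet.zl : Cp (fun x _ => (n x).zl) := ((Cp.const 2).mul h.a).add (Cp.const 4)

lemma CNet.P : Cp (fun x _ => (n x).P) := h.Zn.mul h.zl

lemma CNet.E : Cp (fun x _ => (n x).E) := ((h.Cyc.succ).mul h.P).sub (Cp.const 1)

lemma CNet.tok {e : Fn} (he : Cp e) : Cp (fun x v => (n x).tok (e x v)) := by
  refine Cp.comp1 (g := fun x z => (n x).tok z) ?_ he
  refine (Cp.const 2).add (Cp.sum' (b := fun x _ => (n x).a) (f := fun x v s => (n x).c0 (v 0) s)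
    h.a ?_)
  exact Cp.comp2 (g := fun x z s => (n x).c0 z s) h.c0 (Cp.var 1) (Cp.var 0)

lemma CNet.NT : Cp (fun x _ => (n x).NT) := by
  refine ((Cp.sum' (b := fun x _ => (n x).Zn) (f := fun x v z => (n x).tok z) h.Zn
    (h.tok (Cp.var 0))).mul h.Cyc).sub ((Cp.const 7).mul
    (Cp.sum' (b := fun x _ => (n x).r) (f := fun x v i => (n x).mult i) h.r ?_))
  exact h.mult

lemma CNet.tw : Lw (fun x _ => [(n x).tw]) := by
  refine Lw.single h.P ?_ ?_ ?_ ?_
  · exact Cs.single h.P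
  · exact Cs.single (Cp.const 0)
  · exact Cs.empty
  · exact Cs.empty

omit h in
lemma CNet.iw {e : Fn} (he : Cp e) : Lw (fun x v => [Net.iw (e x v)]) := by
  refine Lw.single (w := fun x v => Net.iw (e x v)) he ?_ ?_ ?_ ?_
  · exact Cs.single he
  · exact Cs.empty
  · exact Cs.empty
  · exact Cs.empty

omit h in
lemma CNet.fw {e : Fn} (he : Cp e) : Lw (fun x v => [Net.fw (e x v)]) := by
  refine Lw.single (w := fun x v => Net.fw (e x v)) he ?_ ?_ ?_ ?_
  · exact Cs.empty
  · exact Cs.single (Cp.const 0)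
  · exact Cs.empty
  · exact Cs.empty

lemma CNet.rw : Lw (fun x v => [(n x).rw ((n x).rule (v 0))]) := by
  have hP2 : Cp (fun x _ => 2 * (n x).P) := (Cp.const 2).mul h.P
  refine Lw.single (w := fun x v => (n x).rw ((n x).rule (v 0))) hP2.succ ?_ ?_ ?_ ?_
  · exact Cs.insert (h.P.add (cp_th h.o0)) (Cs.insert (h.P.add (cp_th h.o1))
      (Cs.insert (h.P.add (cp_th h.o2)) (Cs.insert hP2 (Cs.single hP2.succ))))
  · exact Cs.insert (Cp.const 0) (Cs.insert (Cp.const 1)
      (Cs.insert (cp_th h.i0) (Cs.insert (cp_th h.i1) (Cs.single (cp_th h.i2)))))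
  · exact Cs.single ((cp_th h.l).sub (Cp.const 1))
  · exact Cs.single (cp_th h.l)

lemma CNet.W : Lw (fun x _ => (n x).W) := by
  have hpl : ∀ {e : Fn}, Cp e → Cp (fun x v => e x v * (n x).zl) := fun he => he.mul h.zl
  have hP1 : Cp (fun x _ => (n x).P - 1) := h.P.sub (Cp.const 1)
  refine (((Lw.replicate h.NT h.tw).append ?_).append ?_).append ?_
  · refine Lw.flatMap (F := fun x v i => List.replicate ((n x).mult i) ((n x).rw ((n x).rule i)))
      h.r ?_
    exact Lw.replicate h.mult h.rw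
  · refine Lw.flatMap (F := fun x v z => Net.iw (z * (n x).zl) :: Net.iw (z * (n x).zl + 1) ::
      (List.range (n x).a).flatMap (fun s => List.replicate ((n x).c0 z s)
        (Net.iw (z * (n x).zl + th s)))) h.Zn ?_
    refine Lw.cons (CNet.iw (hpl (Cp.var 0))) (Lw.cons (CNet.iw (hpl (Cp.var 0)).succ) ?_)
    refine Lw.flatMap (F := fun x v s => List.replicate ((n x).c0 (v 0) s)
        (Net.iw (v 0 * (n x).zl + th s))) h.a ?_
    exact Lw.replicate (Cp.comp2 (g := fun x z s => (n x).c0 z s) h.c0 (Cp.var 1) (Cp.var 0))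
      (CNet.iw ((hpl (Cp.var 1)).add (cp_th (Cp.var 0))))
  · refine Lw.flatMap (F := fun x v z => Net.fw ((n x).P - 1 - z * (n x).zl) ::
      Net.fw ((n x).P - 1 - (z * (n x).zl + 1)) ::
      (List.range (n x).a).flatMap (fun s => List.replicate ((n x).cf z s)
        (Net.fw ((n x).P - 1 - (z * (n x).zl + th s))))) h.Zn ?_
    refine Lw.cons (CNet.fw (hP1.sub (hpl (Cp.var 0))))
      (Lw.cons (CNet.fw (hP1.sub (hpl (Cp.var 0)).succ)) ?_)
    refine Lw.flatMap (F := fun x v s => List.replicate ((n x).cf (v 0) s)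
        (Net.fw ((n x).P - 1 - (v 0 * (n x).zl + th s)))) h.a ?_
    exact Lw.replicate (Cp.comp2 (g := fun x z s => (n x).cf z s) h.cf (Cp.var 1) (Cp.var 0))
      (CNet.fw (hP1.sub ((hpl (Cp.var 1)).add (cp_th (Cp.var 0)))))

end net

lemma de_replicate {b : Fn} {α : Type} [N487b59b3 α] (hb : Cp b) (w : α) :
    De (fun x v => List.replicate (b x v) w) := by
  refine (De.map (F := fun _ _ _ => w) hb (De.word w)).congr fun x v => ?_
  induction b x v with
  | zero => rfl
  | succ n ih => rw [List.range_succ, List.map_append, ih, List.replicate_succ']; rfl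

lemma sum_replicate_pp (n : ℕ) (l : Let) :
    (((List.replicate n [l]).flatten).map pp).sum = n * pp l := by
  induction n with
  | zero => simp
  | succ n ih =>
    rw [List.replicate_succ, List.flatten_cons, List.map_append, List.sum_append, ih]
    simp
    ring

theorem de_toInst {n : List Bool → Net} (h : CNet n) : De (fun x _ => (n x).toInst) := by
  have h3 : Cp (fun x _ => 3 * ((n x).E + 1)) := (Cp.const 3).mul h.E.succ
  have h3' : Cp (fun x _ => 3 * (n x).E) := (Cp.const 3).mul h.E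
  have k1 : De (fun x _ => instJobs (words (n x).W (n x).E)) := by
    refine (De.cons (De.word ([(1, 26)] : Job)) (De.cons (De.word ([(2, 48)] : Job))
      (((((h.W.1.append (de_replicate h3 (jobOf [.n1]))).append
      (de_replicate h3' (jobOf [.n2]))).append (de_replicate h.E (jobOf [.s]))).append
      (de_replicate h.E (jobOf [.r]))).append
      (De.word ([jobOf [.e1], jobOf [.e2]] : List Job))))).congr fun x v => ?_
    unfold instJobs words
    simp only [List.map_append, List.map_replicate, List.map_map]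
    rfl
  have k2 : Cp (fun x _ => Lof (words (n x).W (n x).E)) := by
    refine (((((h.W.2.add (h3.mulC (pp .n1))).add (h3'.mulC (pp .n2))).add
      (h.E.mulC (pp .s))).add (h.E.mulC (pp .r))).add (Cp.const (pp .e1 + pp .e2))).congr
      fun x v => ?_
    unfold Lof words
    simp only [List.flatten_append, List.map_append, List.sum_append, sum_replicate_pp]
    have e1 : ((n x).W.map (fun w => (w.letters.map pp).sum)).sum =
        ((((n x).W.map WD.letters).flatten).map pp).sum := by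
      induction (n x).W with
      | nil => rfl
      | cons a l ih => simp only [List.map_cons, List.sum_cons, List.flatten_cons,
          List.map_append, List.sum_append, ih]
    rw [e1]
    rfl
  exact (De.pair k1 (De.nat k2)).congr fun x v => rfl

/-! ### Token machines -/

structure CTok (T : List Bool → Tok) : Prop where
  ns : Cp (fun x _ => (T x).ns)
  nc : Cp (fun x _ => (T x).nc)
  r : Cp (fun x _ => (T x).r)
  p0 : Cp (fun x _ => (T x).p0)
  acc : Cp (fun x _ => (T x).acc)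
  e : Cp (fun x _ => (T x).e)
  f : Cp (fun x _ => (T x).f)
  rp : Cp (fun x v => (T x).rp (v 0))
  rq : Cp (fun x v => (T x).rq (v 0))
  rx : Cp (fun x v => (T x).rx (v 0))
  ry : Cp (fun x v => (T x).ry (v 0))
  rl : Cp (fun x v => (T x).rl (v 0))

lemma cp_ite3 {α : Type} (f : α → ℕ) {P P' : Pr} [∀ x v, Decidable (P x v)]
    [∀ x v, Decidable (P' x v)] {R1 R2 R3 : List Bool → (ℕ → ℕ) → α} (hP : Cq P) (hP' : Cq P')
    (h1 : Cp (fun x v => f (R1 x v))) (h2 : Cp (fun x v => f (R2 x v)))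
    (h3 : Cp (fun x v => f (R3 x v))) :
    Cp (fun x v => f (if P x v then R1 x v else if P' x v then R2 x v else R3 x v)) := by
  refine (Cp.ite hP h1 (Cp.ite hP' h2 h3)).congr fun x v => ?_
  split_ifs <;> rfl

theorem cnet {T : List Bool → Tok} (h : CTok T) {c0 : List Bool → ℕ → ℕ}
    (hc : Cp (fun x v => c0 x (v 0))) {N : List Bool → ℕ} (hN : Cp (fun x _ => N x)) :
    CNet (fun x => (T x).net (c0 x) (N x)) := by
  have h2 : Cp (fun x _ => 2 + (T x).ns) := (Cp.const 2).add h.ns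
  have hr2 : Cp (fun x _ => 2 * (T x).r) := (Cp.const 2).mul h.r
  have hP : Cq (fun x v => v 0 = 2 * (T x).r) := Cq.eq (Cp.var 0) hr2
  have hP' : Cq (fun _ v => v 0 % 2 = 0) := Cq.eq ((Cp.var 0).mod (Cp.const 2)) (Cp.const 0)
  have hd : Cp (fun _ v => v 0 / 2) := (Cp.var 0).div (Cp.const 2)
  have hz : Cp (fun _ v => v 0 - 1) := (Cp.var 0).sub (Cp.const 1)
  have hp : Cp (fun x v => (T x).rp (v 0 / 2)) := Cp.comp1 (g := fun x i => (T x).rp i) h.rp hd
  have hq : Cp (fun x v => (T x).rq (v 0 / 2)) := Cp.comp1 (g := fun x i => (T x).rq i) h.rq hd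
  have hx : Cp (fun x v => (T x).rx (v 0 / 2)) := Cp.comp1 (g := fun x i => (T x).rx i) h.rx hd
  have hy : Cp (fun x v => (T x).ry (v 0 / 2)) := Cp.comp1 (g := fun x i => (T x).ry i) h.ry hd
  have hl : Cp (fun x v => (T x).rl (v 0 / 2)) := Cp.comp1 (g := fun x i => (T x).rl i) h.rl hd
  have hpz : Cp (fun x v => (T x).rp (v 0 - 1)) := Cp.comp1 (g := fun x i => (T x).rp i) h.rp hz
  have hxz : Cp (fun x v => (T x).rx (v 0 - 1)) := Cp.comp1 (g := fun x i => (T x).rx i) h.rx hz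
  have hcz : Cp (fun x v => c0 x (v 1 - (2 + (T x).ns))) :=
    Cp.comp1 (g := fun x i => c0 x i) hc ((Cp.var 1).sub h2)
  have hz0 : Cq (fun _ v => v 0 = 0) := Cq.eq (Cp.var 0) (Cp.const 0)
  have hs0 : Cq (fun _ v => v 1 = 0) := Cq.eq (Cp.var 1) (Cp.const 0)
  have hs1 : Cq (fun _ v => v 1 = 1) := Cq.eq (Cp.var 1) (Cp.const 1)
  have hlt : Cq (fun x v => v 1 < 2 + (T x).ns) := Cq.lt (Cp.var 1) h2
  have hsp : Cq (fun x v => v 1 = 2 + (T x).p0) := Cq.eq (Cp.var 1) ((Cp.const 2).add h.p0)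
  have hor : Cq (fun x v => v 1 = 0 ∨ v 1 = 1 ∨ v 1 = 2 + (T x).rp (v 0 - 1) ∨
      v 1 = 2 + (T x).ns + (T x).rx (v 0 - 1)) :=
    hs0.or (hs1.or ((Cq.eq (Cp.var 1) ((Cp.const 2).add hpz)).or
      (Cq.eq (Cp.var 1) (h2.add hxz))))
  have h2c := Cp.const 2
  exact {
    a := h2.add h.nc
    Zn := h.r.succ
    r := hr2.succ
    Cyc := (Cp.const 2).mul ((hr2.mul hN).succ)
    i0 := cp_ite3 Rule.i0 hP hP' (Cp.const 0) (Cp.const 0) (Cp.const 1)
    i1 := cp_ite3 Rule.i1 hP hP' (h2c.add h.acc) (h2c.add hp) (h2c.add hq)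
    i2 := cp_ite3 Rule.i2 hP hP' (h2.add h.e) (h2.add hx) (h2.add hy)
    o0 := cp_ite3 Rule.o0 hP hP' (Cp.const 1) (Cp.const 0) (Cp.const 1)
    o1 := cp_ite3 Rule.o1 hP hP' (h2c.add h.acc) (h2c.add hq) (h2c.add hp)
    o2 := cp_ite3 Rule.o2 hP hP' (h2.add h.e) (h2.add hy) (h2.add hx)
    l := cp_ite3 Rule.l hP hP' (h2.add h.f) (h2.add hl) (h2.add hl)
    mult := Cp.ite hP (Cp.const 1) hN
    c0 := Cp.ite hz0 (Cp.ite hs0 (Cp.const 1) (Cp.ite hs1 (Cp.const 0) (Cp.ite hlt
      (Cp.ite hsp (Cp.const 1) (Cp.const 0)) hcz))) (Cp.ite hor (Cp.const 1) (Cp.const 0))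
    cf := Cp.ite hz0 (Cp.ite hs0 (Cp.const 0) (Cp.ite hs1 (Cp.const 1) (Cp.ite hlt
      (Cp.ite hsp (Cp.const 1) (Cp.const 0)) hcz))) (Cp.ite hor (Cp.const 1) (Cp.const 0)) }

/-! ### The rules of the token machine -/

def C5 (F : List Bool → (ℕ → ℕ) → ℕ × ℕ × ℕ × ℕ × ℕ) : Prop :=
  Cp (fun x v => (F x v).1) ∧ Cp (fun x v => (F x v).2.1) ∧ Cp (fun x v => (F x v).2.2.1) ∧
    Cp (fun x v => (F x v).2.2.2.1) ∧ Cp (fun x v => (F x v).2.2.2.2)

lemma C5.congr {F G : List Bool → (ℕ → ℕ) → ℕ × ℕ × ℕ × ℕ × ℕ} (h : C5 F)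
    (e : ∀ x v, F x v = G x v) : C5 G := by
  have : F = G := by funext x v; exact e x v
  exact this ▸ h

lemma C5.mk {a b c d e : Fn} (ha : Cp a) (hb : Cp b) (hc : Cp c) (hd : Cp d) (he : Cp e) :
    C5 (fun x v => (a x v, b x v, c x v, d x v, e x v)) := ⟨ha, hb, hc, hd, he⟩

lemma C5.ite {P : Pr} {F G : List Bool → (ℕ → ℕ) → ℕ × ℕ × ℕ × ℕ × ℕ}
    [∀ x v, Decidable (P x v)] (hP : Cq P) (hF : C5 F) (hG : C5 G) :
    C5 (fun x v => if P x v then F x v else G x v) := by
  obtain ⟨f1, f2, f3, f4, f5⟩ := hF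
  obtain ⟨g1, g2, g3, g4, g5⟩ := hG
  refine ⟨(Cp.ite hP f1 g1).congr ?_, (Cp.ite hP f2 g2).congr ?_, (Cp.ite hP f3 g3).congr ?_,
    (Cp.ite hP f4 g4).congr ?_, (Cp.ite hP f5 g5).congr ?_⟩
  all_goals
    intro x v
    beta_reduce
    split_ifs <;> rfl

lemma C5.lookup {α : Type} {D : List Bool → (ℕ → ℕ) → ℕ × ℕ × ℕ × ℕ × ℕ}
    {f : α → List Bool → (ℕ → ℕ) → ℕ × ℕ × ℕ × ℕ × ℕ} (hD : C5 D) : ∀ (l : List α),
    (∀ a ∈ l, C5 (f a)) → ∀ {e : Fn}, Cp e →
    C5 (fun x v => match l[e x v]? with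
      | none => D x v
      | some a => f a x v) := by
  intro l
  induction l with
  | nil => intro _ e he; exact hD.congr fun x v => by simp
  | cons a l ih =>
    intro hf e he
    refine (C5.ite (Cq.eq he (Cp.const 0)) (hf a (by simp)) (ih (fun b hb => hf b (by simp [hb]))
      (he.sub (Cp.const 1)))).congr fun x v => ?_
    rcases h0 : e x v with _ | m
    · simp
    · simp

lemma cp_sc (B Q ty : ℕ) {d j q g h : Fn} (hd : Cp d) (hj : Cp j) (hq : Cp q) (hg : Cp g)
    (hh : Cp h) : Cp (fun x v => sc B Q ty (d x v) (j x v) (q x v) (g x v) (h x v)) :=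
  (Cp.const ty).add ((Cp.const 8).mul (hd.add ((Cp.const 2).mul (hg.add ((Cp.const B).mul
    (hh.add ((Cp.const B).mul (hq.add ((Cp.const Q).mul hj)))))))))

theorem c5_rule (δ : NTM) (B Q : ℕ) {k : List Bool → ℕ} (hk : Cp (fun x _ => k x)) :
    C5 (fun x v => ruleV δ B Q (k x) (v 0)) := by
  have c := fun n => Cp.const n
  have hty : Cp (fun _ v => v 0 % 16) := (Cp.var 0).mod (c 16)
  have hd : Cp (fun _ v => v 0 / 16 % 2) := ((Cp.var 0).div (c 16)).mod (c 2)
  have hg : Cp (fun _ v => v 0 / 32 % B) := ((Cp.var 0).div (c 32)).mod (c B)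
  have hh : Cp (fun _ v => v 0 / (32 * B) % B) := ((Cp.var 0).div (c (32 * B))).mod (c B)
  have hq : Cp (fun _ v => v 0 / (32 * B * B) % Q) :=
    ((Cp.var 0).div (c (32 * B * B))).mod (c Q)
  have hj : Cp (fun x v => v 0 / (32 * B * B * Q) % k x) :=
    ((Cp.var 0).div (c (32 * B * B * Q))).mod hk
  have ht : Cp (fun x v => v 0 / (32 * B * B * Q * k x)) :=
    (Cp.var 0).div ((c (32 * B * B * Q)).mul hk)
  have hX : Cp (fun x _ => 2 * k x) := (c 2).mul hk
  have hR : Cp (fun x _ => 2 * k x + 1) := hX.add (c 1)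
  have he : Cp (fun x _ => 2 * k x + 2) := hX.add (c 2)
  have hf : Cp (fun x _ => 2 * k x + 3) := hX.add (c 3)
  have hbh : Cp (fun x v => 2 * (v 0 / (32 * B * B * Q) % k x) + v 0 / 16 % 2) :=
    ((c 2).mul hj).add hd
  have hah : Cp (fun x v => 2 * (v 0 / (32 * B * B * Q) % k x) + (1 - v 0 / 16 % 2)) :=
    ((c 2).mul hj).add ((c 1).sub hd)
  have e : ∀ t : ℕ, Cq (fun _ v => v 0 % 16 = t) := fun t => Cq.eq hty (c t)
  have s := fun (ty : ℕ) {d j q g h : Fn} (hd : Cp d) (hj : Cp j) (hq : Cp q) (hg : Cp g)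
    (hh : Cp h) => cp_sc B Q ty hd hj hq hg hh
  have dead : C5 (fun x _ => (sc B Q 7 0 0 0 0 0, sc B Q 7 0 0 0 0 0, 2 * k x + 2, 2 * k x + 2,
    2 * k x + 3)) := C5.mk (c _) (c _) he he hf
  have h1h : Cq (fun _ v => 1 ≤ v 0 / (32 * B) % B) := Cq.le (c 1) hh
  have h1g : Cq (fun _ v => 1 ≤ v 0 / 32 % B) := Cq.le (c 1) hg
  refine C5.ite (e 0) ?_ (C5.ite (e 1) ?_ (C5.ite (e 2) ?_ (C5.ite (e 3) ?_ (C5.ite (e 4) ?_
    (C5.ite (e 5) ?_ (C5.ite (e 6) ?_ (C5.ite (e 7) ?_ (C5.ite (e 8) ?_ (C5.ite (e 9) ?_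
    (C5.ite (e 10) ?_ (C5.ite (e 11) ?_ (C5.ite (e 12) ?_ (C5.ite (e 13) ?_ (C5.ite (e 14) ?_
    dead))))))))))))))
  · have h0 : ∀ p ∈ δ, C5 (fun x v => (sc B Q 0 0 (v 0 / (32 * B * B * Q) % k x) p.1
        (p.2.1 + 1) 0, sc B Q 1 (if p.2.2.2.2 then 0 else 1) (v 0 / (32 * B * B * Q) % k x)
        p.2.2.1 (p.2.2.2.1 + 1) 0, 2 * k x + 2, 2 * k x + 2, 2 * k x + 3)) := fun p _ =>
      C5.mk (s 0 (c 0) hj (c _) (c _) (c 0)) (s 1 (c _) hj (c _) (c _) (c 0)) he he hf
    refine (C5.lookup dead δ h0 ht).congr fun x v => ?_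
    rcases δ[v 0 / (32 * B * B * Q * k x)]? with _ | ⟨q1, g1, q2, g2, right⟩ <;> rfl
  · exact C5.mk (s 1 hd hj hq hg (c 0)) (s 1 hd hj hq hg (c (B - 1))) hbh hX hf
  · exact C5.ite h1h (C5.mk (s 1 hd hj hq hg hh) (s 1 hd hj hq hg (hh.sub (c 1))) hR hX hf) dead
  · exact C5.mk (s 1 hd hj hq hg (c 0)) (s 2 hd hj hq hg (c 0)) he he hbh
  · exact C5.mk (s 2 hd hj hq hg (c 0)) (s 2 hd hj hq hg (c 0)) hX hbh hf
  · exact C5.mk (s 2 hd hj hq hg (c 0)) (s 3 hd hj hq hg (c 0)) he he hX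
  · exact C5.ite h1g (C5.mk (s 3 hd hj hq hg (c 0)) (s 3 hd hj hq (hg.sub (c 1)) (c 0))
      hR hbh hf) dead
  · exact C5.mk (s 3 hd hj hq (c 0) (c 0)) (s 4 hd hj hq (c 0) (c 0)) he he hf
  · exact C5.ite (Cq.lt (hh.add (c 1)) (c B)) (C5.mk (s 4 hd hj hq (c 0) hh)
      (s 4 hd hj hq (c 0) (hh.add (c 1))) hah hR hf) dead
  · exact C5.mk (s 4 hd hj hq (c 0) (c (B - 1))) (s 4 hd hj hq (c 0) (c 0)) hah hX hf
  · exact C5.ite h1h (C5.mk (s 4 hd hj hq (c 0) hh) (s 5 hd hj hq (c 0) hh) he he hah) dead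
  · exact C5.ite (Cq.eq hd (c 0))
      (C5.ite (Cq.lt (hj.add (c 1)) hk) (C5.mk (s 4 (c 0) hj hq (c 0) (c 0))
        (s 4 (c 0) (hj.add (c 1)) hq (c 0) (c 0)) he he hah) dead)
      (C5.ite (Cq.le (c 1) hj) (C5.mk (s 4 (c 1) hj hq (c 0) (c 0))
        (s 4 (c 1) (hj.sub (c 1)) hq (c 0) (c 0)) he he hah) dead)
  · exact C5.mk (s 5 hd hj hq (c 0) hh) (s 5 hd hj hq (c 0) hh) hX hah hf
  · exact C5.mk (s 5 hd hj hq (c 0) hh) (s 0 (c 0) hj hq hh (c 0)) he he hX
  · exact C5.mk (s 0 (c 0) hj (c 1) hg (c 0)) (s 6 (c 0) (c 0) (c 0) (c 0) (c 0)) he he hf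

theorem ctok (δ : NTM) (B Q : ℕ) {k g0 : List Bool → ℕ} (hk : Cp (fun x _ => k x))
    (hg : Cp (fun x _ => g0 x)) : CTok (fun x => tokV δ B Q (k x) (g0 x)) := by
  have c := fun n => Cp.const n
  obtain ⟨h1, h2, h3, h4, h5⟩ := c5_rule δ B Q hk
  exact {
    ns := (c (16 * B * B * Q)).mul hk
    nc := ((c 2).mul hk).add (c 4)
    r := ((c (32 * B * B * Q)).mul hk).mul (c (δ.length + 1))
    p0 := cp_sc B Q 0 (c 0) (c 0) (c 0) (hg.add (c 1)) (c 0)
    acc := c _
    e := ((c 2).mul hk).add (c 2)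
    f := ((c 2).mul hk).add (c 3)
    rp := h1
    rq := h2
    rx := h3
    ry := h4
    rl := h5 }

/-! ### Powers of a prime -/

/-- `t` is a power of the prime `B` -/
def IsP (B t : ℕ) : Prop := 1 ≤ t ∧ ∀ d < t + 1, 1 < d → t % d = 0 → d % B = 0

lemma isP_iff {B t : ℕ} (hp : B.Prime) : IsP B t ↔ ∃ i, t = B ^ i := by
  constructor
  · rintro ⟨h1, h2⟩
    refine ⟨_, Nat.eq_prime_pow_of_unique_prime_dvd (by omega : t ≠ 0) (p := B) ?_⟩
    intro d hd hdt
    have h3 := h2 d (Nat.lt_succ_of_le (Nat.le_of_dvd (by omega) hdt)) hd.one_lt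
      (Nat.mod_eq_zero_of_dvd hdt)
    exact ((Nat.prime_dvd_prime_iff_eq hp hd).1 (Nat.dvd_of_mod_eq_zero h3)).symm
  · rintro ⟨i, rfl⟩
    refine ⟨Nat.pow_pos hp.pos, fun d _ hd hm => ?_⟩
    obtain ⟨j, _, rfl⟩ := (Nat.dvd_prime_pow hp).1 (Nat.dvd_of_mod_eq_zero hm)
    have hj : j ≠ 0 := by rintro rfl; simp at hd
    exact Nat.mod_eq_zero_of_dvd (dvd_pow_self B hj)

open Classical in
/-- `B ^ i` if this is at most `N` -/
noncomputable def pw (B N i : ℕ) : ℕ := ∑ t ∈ Finset.range (N + 1),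
  if IsP B t ∧ ((Finset.range t).filter (fun s => IsP B s)).card = i then t else 0

lemma card_isP {B i : ℕ} (hp : B.Prime) [DecidablePred (fun s => IsP B s)] :
    ((Finset.range (B ^ i)).filter (fun s => IsP B s)).card = i := by
  have : (Finset.range (B ^ i)).filter (fun s => IsP B s) =
      (Finset.range i).image (fun j => B ^ j) := by
    ext s
    simp only [Finset.mem_filter, Finset.mem_range, Finset.mem_image, isP_iff hp]
    constructor
    · rintro ⟨h1, j, rfl⟩
      exact ⟨j, (Nat.pow_lt_pow_iff_right hp.one_lt).1 h1, rfl⟩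
    · rintro ⟨j, hj, rfl⟩
      exact ⟨(Nat.pow_lt_pow_iff_right hp.one_lt).2 hj, j, rfl⟩
  rw [this, Finset.card_image_of_injective _ (Nat.pow_right_injective hp.two_le),
    Finset.card_range]

lemma pw_eq {B N i : ℕ} (hp : B.Prime) (h : B ^ i ≤ N) : pw B N i = B ^ i := by
  classical
  unfold pw
  rw [Finset.sum_eq_single (B ^ i)]
  · rw [if_pos ⟨(isP_iff hp).2 ⟨i, rfl⟩, card_isP hp⟩]
  · intro t _ ht
    rw [if_neg]
    rintro ⟨h1, h2⟩
    obtain ⟨j, rfl⟩ := (isP_iff hp).1 h1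
    rw [card_isP hp] at h2
    exact ht (by rw [h2])
  · intro h1
    exact absurd (Finset.mem_range.2 (by omega)) h1

lemma cq_isP (B : ℕ) : Cq (fun _ v => IsP B (v 0)) := by
  refine (Cq.le (Cp.const 1) (Cp.var 0)).and (Cq.all' (P := fun _ v d => 1 < d → v 0 % d = 0 →
    d % B = 0) (Cp.var 0).succ ?_)
  exact (Cq.lt (Cp.const 1) (Cp.var 0)).imp
    ((Cq.eq ((Cp.var 1).mod (Cp.var 0)) (Cp.const 0)).imp
      (Cq.eq ((Cp.var 0).mod (Cp.const B)) (Cp.const 0)))

lemma cp_pw (B : ℕ) {N i : Fn} (hN : Cp N) (hi : Cp i) : Cp (fun x v => pw B (N x v) (i x v)) := by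
  classical
  refine Cp.comp2 (g := fun _ N i => pw B N i) ?_ hN hi
  refine Cp.sum' (f := fun _ v t => if IsP B t ∧
    ((Finset.range t).filter (fun s => IsP B s)).card = v 1 then t else 0) (Cp.var 0).succ ?_
  refine Cp.ite ((cq_isP B).and (Cq.eq ?_ (Cp.var 2))) (Cp.var 0) (Cp.const 0)
  exact Cp.count (P := fun _ _ s => IsP B s) (Cp.var 0) (cq_isP B)

/-! ### Parsing -/

/-- length of the first block of ones of `g 0, g 1, …` -/
def blk (g : ℕ → Bool) (n : ℕ) : ℕ :=
  ((Finset.range n).filter (fun i => ∀ j < i + 1, g j = true)).card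

lemma blk_eq {g : ℕ → Bool} {n k : ℕ} (h1 : ∀ j < k, g j = true) (h2 : g k = false) (h3 : k ≤ n) :
    blk g n = k := by
  unfold blk
  have : (Finset.range n).filter (fun i => ∀ j < i + 1, g j = true) = Finset.range k := by
    ext i
    simp only [Finset.mem_filter, Finset.mem_range]
    constructor
    · rintro ⟨_, h⟩
      by_contra hi
      have := h k (by omega)
      rw [h2] at this
      cases this
    · intro hi
      exact ⟨by omega, fun j hj => h1 j (by omega)⟩
  rw [this, Finset.card_range]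

lemma getD_block (k : ℕ) (l : List Bool) (j : ℕ) :
    (List.replicate k true ++ false :: l).getD j false =
      if j < k then true else if j = k then false else l.getD (j - (k + 1)) false := by
  induction k generalizing j with
  | zero =>
    cases j with
    | zero => simp
    | succ j => simp
  | succ k ih =>
    cases j with
    | zero => simp [List.replicate_succ]
    | succ j =>
      rw [List.replicate_succ, List.cons_append, List.getD_cons_succ, ih]
      have e1 : j + 1 - (k + 1 + 1) = j - (k + 1) := by omega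
      rw [e1]
      simp only [Nat.add_lt_add_iff_right, Nat.add_right_cancel_iff]

def kk (w : List Bool) : ℕ := blk (fun j => w.getD j false) w.length

def nn (w : List Bool) : ℕ := blk (fun j => w.getD (kk w + 1 + j) false) w.length

def tp (w : List Bool) (i : ℕ) : ℕ :=
  if i < w.length - (kk w + nn w + 2) then (w.getD (kk w + nn w + 2 + i) false).toNat else 2

lemma length_padw (k N : ℕ) (x : List Bool) : (padw k N x).length = k + N + 2 + x.length := by
  unfold padw
  simp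
  omega

lemma kk_padw (k N : ℕ) (x : List Bool) : kk (padw k N x) = k := by
  refine blk_eq ?_ ?_ (by rw [length_padw]; omega)
  · intro j hj
    rw [padw, getD_block, if_pos hj]
  · rw [padw, getD_block, if_neg (lt_irrefl _), if_pos rfl]

lemma nn_padw (k N : ℕ) (x : List Bool) : nn (padw k N x) = N := by
  unfold nn
  rw [kk_padw]
  have e : ∀ j, (padw k N x).getD (k + 1 + j) false =
      (List.replicate N true ++ false :: x).getD j false := by
    intro j
    rw [padw, getD_block, if_neg (by omega), if_neg (by omega)]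
    congr 1
    omega
  simp only [e]
  refine blk_eq ?_ ?_ (by rw [length_padw]; omega)
  · intro j hj
    rw [getD_block, if_pos hj]
  · rw [getD_block, if_neg (lt_irrefl _), if_pos rfl]

lemma tp_padw (k N : ℕ) (x : List Bool) : tp (padw k N x) = tape0 x := by
  funext i
  unfold tp tape0
  rw [kk_padw, nn_padw, length_padw]
  have e1 : k + N + 2 + x.length - (k + N + 2) = x.length := by omega
  have e2 : (padw k N x).getD (k + N + 2 + i) false = x.getD i false := by
    rw [padw, getD_block, if_neg (by omega), if_neg (by omega), getD_block, if_neg (by omega),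
      if_neg (by omega)]
    congr 1
    omega
  rw [e1, e2]

lemma cp_blk {n : Fn} (hn : Cp n) {g : List Bool → (ℕ → ℕ) → ℕ → Bool}
    (hg : Cq (fun x v => g x (fun i => v (i + 1)) (v 0) = true)) :
    Cp (fun x v => blk (g x v) (n x v)) := by
  refine Cp.count (P := fun x v i => ∀ j < i + 1, g x v j = true) hn ?_
  refine Cq.all' (P := fun x v j => g x (fun i => v (i + 1)) j = true) (Cp.var 0).succ ?_
  exact hg.rename (fun i => if i = 0 then 0 else i + 1)

lemma cp_kk : Cp (fun x _ => kk x) :=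
  cp_blk Cp.len (g := fun x _ j => x.getD j false) (Cq.bit (Cp.var 0))

lemma cp_nn : Cp (fun x _ => nn x) :=
  cp_blk Cp.len (g := fun x _ j => x.getD (kk x + 1 + j) false)
    (Cq.bit ((cp_kk.succ).add (Cp.var 0)))

lemma cp_tp {e : Fn} (he : Cp e) : Cp (fun x v => tp x (e x v)) := by
  have h2 : Cp (fun x _ => kk x + nn x + 2) := (cp_kk.add cp_nn).add (Cp.const 2)
  exact Cp.ite (Cq.lt he (Cp.len.sub h2)) (Cp.bit (h2.add he)) (Cp.const 2)

/-! ### The reduction -/

/-- capped value of cells of the tape -/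
noncomputable def encF (B : ℕ) (w : List Bool) (s n : ℕ) : ℕ :=
  ∑ i ∈ Finset.range n, (tp w (s + i) + 1) * pw B (nn w) i

def lF (c : ℕ) (w : List Bool) : ℕ := c * (w.length - (kk w + nn w + 2) + 1) / kk w + 1

noncomputable def c0F (B c : ℕ) (w : List Bool) (s : ℕ) : ℕ :=
  if s < 2 * kk w then
    (if s = 1 then encF B w 1 (lF c w - 1) else if s % 2 = 1 then encF B w (s / 2 * lF c w) (lF c w)
      else 0)
  else if s = 2 * kk w + 1 then (2 * kk w + 3) * B * nn w
  else if s = 2 * kk w + 2 then 1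
  else 0

noncomputable def netF (δ : NTM) (B Q c : ℕ) (w : List Bool) : Net :=
  (tokV δ B Q (kk w) (tp w 0)).net (c0F B c w) (20 * B * nn w * (nn w + 1))

lemma encF_padw {B k N : ℕ} (hp : B.Prime) (x : List Bool) (s n : ℕ) (h : B ^ n ≤ N) :
    encF B (padw k N x) s n = encT B (tape0 x) s n := by
  unfold encF encT
  rw [tp_padw, nn_padw]
  refine Finset.sum_congr rfl fun i hi => ?_
  rw [pw_eq hp ((Nat.pow_le_pow_right hp.pos (Finset.mem_range.1 hi).le).trans h)]

lemma netF_padw {δ : NTM} {B Q c k N : ℕ} (hp : B.Prime) {x : List Bool}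
    (h : B ^ (c * (x.length + 1) / k + 1) ≤ N) :
    (netF δ B Q c (padw k N x)).toInst = theInst δ B Q c k N x := by
  have hl : lF c (padw k N x) = c * (x.length + 1) / k + 1 := by
    unfold lF
    rw [kk_padw, nn_padw, length_padw]
    congr 4
    omega
  have h1 : B ^ (c * (x.length + 1) / k + 1 - 1) ≤ N :=
    (Nat.pow_le_pow_right hp.pos (by omega)).trans h
  have e : c0F B c (padw k N x) =
      c0V B k (c * (x.length + 1) / k + 1) ((2 * k + 3) * B * N) (tape0 x) := by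
    funext s
    unfold c0F c0V
    rw [hl, kk_padw, nn_padw, encF_padw hp x _ _ h1, encF_padw hp x _ _ h]
  unfold netF theInst
  rw [e, kk_padw, nn_padw, tp_padw]

lemma cp_encF (B : ℕ) {s n : Fn} (hs : Cp s) (hn : Cp n) :
    Cp (fun x v => encF B x (s x v) (n x v)) := by
  refine Cp.comp2 (g := fun x s n => encF B x s n) ?_ hs hn
  refine Cp.sum' (f := fun x v i => (tp x (v 0 + i) + 1) * pw B (nn x) i) (Cp.var 1) ?_
  exact ((cp_tp ((Cp.var 1).add (Cp.var 0))).succ).mul (cp_pw B cp_nn (Cp.var 0))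

lemma cp_lF (c : ℕ) : Cp (fun x _ => lF c x) :=
  (((Cp.const c).mul ((Cp.len.sub ((cp_kk.add cp_nn).add (Cp.const 2))).succ)).div cp_kk).succ

lemma cp_c0F (B c : ℕ) : Cp (fun x v => c0F B c x (v 0)) := by
  have h2 : Cp (fun x _ => 2 * kk x) := (Cp.const 2).mul cp_kk
  have v0 := Cp.var 0
  exact Cp.ite (Cq.lt v0 h2) (Cp.ite (Cq.eq v0 (Cp.const 1))
      (cp_encF B (Cp.const 1) ((cp_lF c).sub (Cp.const 1)))
      (Cp.ite (Cq.eq (v0.mod (Cp.const 2)) (Cp.const 1))
        (cp_encF B ((v0.div (Cp.const 2)).mul (cp_lF c)) (cp_lF c)) (Cp.const 0)))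
    (Cp.ite (Cq.eq v0 (h2.add (Cp.const 1))) (((h2.add (Cp.const 3)).mul (Cp.const B)).mul cp_nn)
      (Cp.ite (Cq.eq v0 (h2.add (Cp.const 2))) (Cp.const 1) (Cp.const 0)))

end K1

theorem red_poly (δ : NTM) (B Q c : ℕ) (hp : B.Prime) :
    ∃ F : List Bool → Inst, N68a2faeb.IsPolyTime F ∧ ∀ (k N : ℕ) (x : List Bool), 0 < k →
      B ^ (c * (x.length + 1) / k + 1) ≤ N → F (padw k N x) = theInst δ B Q c k N x := by
  open K1 Pool.Agent.H54.PT in
  refine ⟨fun w => (netF δ B Q c w).toInst, isPolyTime (de_toInst (cnet (ctok δ B Q cp_kk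
    (cp_tp (Cp.const 0))) (cp_c0F B c) ?_)), fun k N x _ h => netF_padw hp h⟩
  exact ((Pool.Agent.H54.PT.Cp.const (20 * B)).mul cp_nn).mul cp_nn.succ

end Pool.Agent.helper66.JS
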